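import Pool.Agent.MP_fdd1d3_nt.PD6

namespace Pool.Agent.Results.MP_fdd1d3_nt.TailDensity

open Filter

/-- Lower bound for the tail of the distribution of a(n) / log X, where a(n) is the least k with
k n + 1 prime, uniformly for lam up to (1 / A) log log log X. -/
theorem result : ∃ A : ℝ, 0 < A ∧ ∀ᶠ X : ℕ in atTop, ∀ lam : ℝ, 1 ≤ lam →
    Real.exp (A * lam) ≤ Real.log (Real.log X) →
    Real.exp (-Real.exp (A * lam)) * X ≤ ({n : ℕ | 1 ≤ n ∧ n ≤ X ∧
      lam * Real.log X < (Nat.nth (fun k => (k * n + 1).Prime) 0 : ℕ)}.ncard : ℝ) := by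
  classical
  obtain ⟨A, hA, h⟩ := Pool.Agent.MP_fdd1d3_nt.PD.density
  refine ⟨A, hA, h.mono fun X hX lam h1 h2 => (hX lam h1 h2).trans (le_of_eq ?_)⟩
  rw [← Set.ncard_coe_finset]
  congr 2
  ext n
  simp [and_assoc]

end Pool.Agent.Results.MP_fdd1d3_nt.TailDensity
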